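import Pool.Agent.R288.FT.Fin

/-!
# `f_3(G)` can be computed in polynomial time

`NPC.PolyTime f`: the function `f` on bit strings is computed by a Turing machine in polynomial time
(Mathlib's `Turing.TM2ComputableInPolyTime`).  `NPC.bits`: the standard code of structured data as a
bit string; numbers are written in binary.  `adjMatrix G`: the adjacency matrix of a graph `G` on
`{0, ..., n-1}`, as the list of its rows.  `fk k G`: the least size of a set `B` of vertices such
that in `H = G - B` at least `k` vertices have degree `Δ(H)`, or `H` has less than `k` vertices.
-/

namespace Pool.Agent.Results.MP_3ff6cb_lc.PolynomialTime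

open Pool.Agent.NPC Pool.Agent.NPC.R671 Pool.Agent.R288.FT

/-- There is a polynomial-time algorithm which computes `f_3(G)` from the adjacency matrix
of `G`. -/
theorem result : ∃ f : List Bool → List Bool, PolyTime f ∧
    ∀ (n : ℕ) (G : SimpleGraph (Fin n)), f (bits (adjMatrix G)) = bits (fk 3 G) :=
  final

end Pool.Agent.Results.MP_3ff6cb_lc.PolynomialTime
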